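import Pool.Agent.Lib.Skw.Cur

/-!
Problem MP_3c016c_gt (Q1: is `N(M) ≤ N(M / Γ)` for the totally skew embedding dimension `N`?).

Q1 for all closed `1`-manifolds: `N(M) = 4` for every nonempty closed `1`-manifold `M`.

The structure `TSCurves` is in `Pool/Agent/Lib/Skw/Cur.lean`. `TSCurves k N f` says that the `k`
curves `f i`, smooth functions on `ℝ` with period `2π`, are a totally skew embedding of the disjoint
union of `k` circles into `ℝ^N`.
-/

open Pool.Agent.Lib.Skw

namespace Pool.Agent.Results.MP_3c016c_gt.ClosedCurves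

/-- **Result.** The disjoint union of `k ≥ 1` circles has a totally skew embedding into `ℝ^N` if
and only if `N ≥ 4`; hence Q1 for the closed `1`-manifolds. -/
theorem result :
    (∀ k N : ℕ, 1 ≤ k → ((∃ f, TSCurves k N f) ↔ 4 ≤ N)) ∧
    ∀ j k N : ℕ, 1 ≤ j → (∃ f, TSCurves j N f) → ∃ f, TSCurves k N f := by
  refine ⟨fun k N hk => ⟨fun h => ?_, fun h => TSCurves.pad h (curves_four k)⟩,
    fun j k N hj h => curves_all hj h⟩
  by_contra hN
  obtain ⟨f, hf⟩ := TSCurves.pad (M := 3) (by omega) h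
  refine no_curve_three (hf.smooth ⟨0, hk⟩) (hf.per ⟨0, hk⟩) fun s t hst => ?_
  exact hf.skew ⟨0, hk⟩ ⟨0, hk⟩ s t fun _ => hst

end Pool.Agent.Results.MP_3c016c_gt.ClosedCurves
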