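import Pool.Agent.Lib.Skw.Kln
import Pool.Agent.Lib.Skw.Tor

/-!
Problem MP_3c016c_gt (Q1: is `N(M) ≤ N(M / Γ)` for the totally skew embedding dimension `N`?).

Q1 for the torus `T^2`; the only quotients of `T^2` by a finite group acting freely are the torus
and the Klein bottle.

The definitions are in `Pool/Agent/Lib/Skw/Pln.lean`. `TorusIn N` says that the torus has a totally
skew embedding into `ℝ^N`, given as a smooth function on the plane invariant under the translations
`(x, y) ↦ (x + 2πm, y + 2πn)`; `KleinIn N` says that the Klein bottle has a totally skew embedding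
into `ℝ^N`, given as a smooth function on the plane invariant under the maps
`(x, y) ↦ (x + πm, (-1)^m y + 2πn)`.
-/

open Pool.Agent.Lib.Skw

namespace Pool.Agent.Results.MP_3c016c_gt.TorusSeven

/-- **Result.** `N(T^2) ≤ 7 ≤ N(K)` for the Klein bottle `K`; hence Q1 for `T^2`: if the Klein
bottle has a totally skew embedding into `ℝ^N`, then so does the torus. -/
theorem result :
    TorusIn 7 ∧ (∀ N : ℕ, KleinIn N → 7 ≤ N) ∧ ∀ N : ℕ, KleinIn N → TorusIn N :=
  ⟨torusIn_seven, fun _ h => kleinIn_seven h, fun _ h => torusIn_seven.pad (kleinIn_seven h)⟩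

end Pool.Agent.Results.MP_3c016c_gt.TorusSeven
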