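import Pool.Agent.Lib.Skw.Stm

/-!
Problem MP_3c016c_gt (Q1: is `N(M) ≤ N(M / Γ)` for the totally skew embedding dimension `N`?).

Q1 for the sphere `S^2`; the only quotient of `S^2` by a nontrivial finite group acting freely is
the projective plane.

The definitions are in `Pool/Agent/Lib/Skw/Stm.lean`. `SphereIn n N` says that the sphere `S^n` has
a totally skew embedding into `ℝ^N`, given as a smooth function on `ℝ^(n+1) ∖ {0}` constant on the
rays from `0`; `ProjIn n N` says that `RP^n` has a totally skew embedding into `ℝ^N`, given as a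
smooth function on `ℝ^(n+1) ∖ {0}` constant on the punctured lines through `0`.
-/

open Pool.Agent.Lib.Skw

namespace Pool.Agent.Results.MP_3c016c_gt.TwoSphere

/-- **Result.** `N(S^2) ≤ 7 ≤ N(RP^2)`; hence Q1 for `S^2`: if `RP^2` has a totally skew embedding
into `ℝ^N`, then so does `S^2`. -/
theorem result :
    SphereIn 2 7 ∧ (∀ N : ℕ, ProjIn 2 N → 7 ≤ N) ∧ ∀ N : ℕ, ProjIn 2 N → SphereIn 2 N :=
  ⟨sphereIn_all 2, fun _ h => projIn_two h, fun _ h => (sphereIn_all 2).pad (projIn_two h)⟩

end Pool.Agent.Results.MP_3c016c_gt.TwoSphere
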